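import Pool.Agent.H299_Slow.Run

set_option autoImplicit false
open scoped Classical

namespace Pool.Agent.Results.MP_ff071a_pr.FullSlowdownNeedsLogLogMixing

/-- Total variation mixing time (threshold `1/4`) of the lazy walk on the finite group `G` with step
set `S`: the law starts at the point mass at `1`, one step is
`p ↦ (x ↦ p x / 2 + (∑ s ∈ S, p (x s⁻¹)) / (2 |S|))`. -/
noncomputable def tmix {G : Type} [Group G] [Fintype G] (S : Finset G) : ℕ :=
  sInf {t : ℕ | (1 / 2 : ℝ) * ∑ g : G,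
    |((fun (p : G → ℝ) (x : G) => p x / 2 + (∑ s ∈ S, p (x * s⁻¹)) / (2 * (S.card : ℝ)))^[t]
      (fun x : G => if x = 1 then (1 : ℝ) else 0)) g - 1 / (Fintype.card G : ℝ)| ≤ 1 / 4}

/-- (1) For all finite groups and step sets `S ⊆ S'` with `S` generating and `|S'| ≤ C |S|`:
`t_mix(G, S') ≤ 5 · t_mix(G, S) · C ^ t_mix(G, S)`. (2) Hence along every sequence as in Q1 (even
without the condition `S' ⊆ S^i`) with `t_mix(G n, S' n) ≥ c · t_mix(G n, S n) · log |G n|` one has
`t_mix(G n, S n) ≥ c' · log log |G n|` for all large `n`, with some `c' > 0`. -/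
theorem result :
    (∀ (G : Type) [Group G] [Fintype G] (S S' : Finset G) (C : ℝ), S.Nonempty →
      Subgroup.closure (S : Set G) = ⊤ → S ⊆ S' → (S'.card : ℝ) ≤ C * S.card →
      (tmix S' : ℝ) ≤ 5 * tmix S * C ^ tmix S) ∧
    (∀ (G : ℕ → Type) [∀ n, Group (G n)] [∀ n, Fintype (G n)] (S S' : ∀ n, Finset (G n)) (C c : ℝ),
      0 < c → Filter.Tendsto (fun n => Fintype.card (G n)) Filter.atTop Filter.atTop →
      (∀ n, Subgroup.closure ((S n : Set (G n))) = ⊤) → (∀ n, S n ⊆ S' n) →
      (∀ n, ((S' n).card : ℝ) ≤ C * ((S n).card : ℝ)) →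
      (∀ n, c * tmix (S n) * Real.log (Fintype.card (G n) : ℝ) ≤ tmix (S' n)) →
      ∃ c' : ℝ, 0 < c' ∧ ∀ᶠ n in Filter.atTop,
        c' * Real.log (Real.log (Fintype.card (G n) : ℝ)) ≤ tmix (S n)) := by
  have part1 : ∀ (G : Type) [Group G] [Fintype G] (S S' : Finset G) (C : ℝ), S.Nonempty →
      Subgroup.closure (S : Set G) = ⊤ → S ⊆ S' → (S'.card : ℝ) ≤ C * S.card →
      (tmix S' : ℝ) ≤ 5 * tmix S * C ^ tmix S := by
    intro G _ _ S S' C hS hg hsub hC
    exact Pool.Agent.H299.Slow.run_bound S S' hS hsub _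
      (Nat.sInf_mem (Pool.Agent.H299.Slow.mixed_gen S hS hg)) C hC
  refine ⟨part1, ?_⟩
  intro G _ _ S S' C c hc hcard hgen hsub hC hslow
  have hll : Filter.Tendsto (fun n => Real.log (Real.log (Fintype.card (G n) : ℝ)))
      Filter.atTop Filter.atTop :=
    Real.tendsto_log_atTop.comp (Real.tendsto_log_atTop.comp
      (tendsto_natCast_atTop_atTop.comp hcard))
  have hl : Filter.Tendsto (fun n => Real.log (Fintype.card (G n) : ℝ))
      Filter.atTop Filter.atTop :=
    Real.tendsto_log_atTop.comp (tendsto_natCast_atTop_atTop.comp hcard)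
  obtain ⟨C', hC'⟩ : ∃ C' : ℝ, C' = max C 0 + 2 := ⟨_, rfl⟩
  have hC2 : 2 ≤ C' := by rw [hC']; have := le_max_right C 0; linarith
  have hCC : C ≤ C' := by rw [hC']; have := le_max_left C 0; linarith
  have hlC : 0 < Real.log C' := Real.log_pos (by linarith)
  refine ⟨1 / (2 * Real.log C'), by positivity, ?_⟩
  filter_upwards [hcard.eventually_ge_atTop 2, hll.eventually_ge_atTop (2 * Real.log (5 / c)),
    hl.eventually_gt_atTop 0] with n h2 h3 h4
  have hne : (S n).Nonempty := by
    rw [Finset.nonempty_iff_ne_empty]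
    intro h
    have h5 := hgen n
    rw [h, Finset.coe_empty, Subgroup.closure_empty] at h5
    have h6 : Subsingleton (G n) := by
      rw [← Subgroup.subsingleton_iff]
      exact subsingleton_of_bot_eq_top h5
    have := Fintype.card_le_one_iff_subsingleton.2 h6
    omega
  obtain ⟨T, hT⟩ : ∃ T : ℕ, T = tmix (S n) := ⟨_, rfl⟩
  have hTm : T ∈ Pool.Agent.H299.Slow.mixed (S n) := by
    rw [hT]
    exact Nat.sInf_mem (Pool.Agent.H299.Slow.mixed_gen (S n) hne (hgen n))
  have hT0 : 1 ≤ T := by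
    by_contra hcon
    have h0 : T = 0 := by omega
    rw [h0] at hTm
    obtain ⟨x, hx⟩ : ∃ x : G n, x ≠ 1 := by
      have : 1 < Fintype.card (G n) := by omega
      haveI := Fintype.one_lt_card_iff_nontrivial.1 this
      exact exists_ne 1
    have h5 := Pool.Agent.H299.Slow.pos_of_mixed (S n) hne 0 hTm x
    have h6 : Pool.Agent.H299.Slow.law (S n) (0 + 0) x = 0 := by
      unfold Pool.Agent.H299.Slow.law
      simp [hx]
    rw [h6] at h5
    exact lt_irrefl _ h5
  have hTr : (1 : ℝ) ≤ T := by exact_mod_cast hT0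
  have hC'' : ((S' n).card : ℝ) ≤ C' * ((S n).card : ℝ) :=
    (hC n).trans (mul_le_mul_of_nonneg_right hCC (by positivity))
  have h7 := part1 (G n) (S n) (S' n) C' hne (hgen n) (hsub n) hC''
  have h8 := (hslow n).trans h7
  rw [← hT] at h8 ⊢
  have h9 : Real.log (Fintype.card (G n) : ℝ) ≤ 5 / c * C' ^ T := by
    have h10 : (T : ℝ) * (c * Real.log (Fintype.card (G n) : ℝ)) ≤ T * (5 * C' ^ T) := by
      linarith
    have h11 := le_of_mul_le_mul_left h10 (by linarith)
    rw [div_mul_eq_mul_div, le_div_iff₀ hc]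
    linarith
  have h12 : Real.log (Real.log (Fintype.card (G n) : ℝ)) ≤ Real.log (5 / c) + T * Real.log C' := by
    have hp : (0 : ℝ) < C' ^ T := by positivity
    calc Real.log (Real.log (Fintype.card (G n) : ℝ)) ≤ Real.log (5 / c * C' ^ T) :=
          Real.log_le_log h4 h9
      _ = Real.log (5 / c) + T * Real.log C' := by
          rw [Real.log_mul (by positivity) hp.ne', Real.log_pow]
  rw [div_mul_eq_mul_div, one_mul, div_le_iff₀ (by positivity)]
  linarith

end Pool.Agent.Results.MP_ff071a_pr.FullSlowdownNeedsLogLogMixing
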