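import Pool.Agent.H299_Slow.Main

set_option autoImplicit false
open scoped Classical

namespace Pool.Agent.Results.MP_ff071a_pr.LogLogSlowdown

/-- There are finite groups `G n` with `|G n| → ∞` and symmetric generating sets
`S n ⊂ S' n ⊆ (S n)^2` with `|S' n| ≤ (3/2) |S n|` such that the total variation mixing time
(threshold `1/4`, lazy walk) with respect to `S' n` is at least `c · t_mix(G n, S n) · log log |G n|`. -/
theorem result :
  ∃ (G : ℕ → Type) (_ : ∀ n, Group (G n)) (_ : ∀ n, Fintype (G n))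
    (S S' : ∀ n, Finset (G n)),
    Filter.Tendsto (fun n => Fintype.card (G n)) Filter.atTop Filter.atTop ∧
    (∀ n, (∀ s ∈ S n, s⁻¹ ∈ S n) ∧ Subgroup.closure ((S n : Set (G n))) = ⊤ ∧
      (∀ s ∈ S' n, s⁻¹ ∈ S' n) ∧ Subgroup.closure ((S' n : Set (G n))) = ⊤ ∧
      S n ⊂ S' n ∧
      ∀ g ∈ S' n, ∃ l : List (G n), l.length ≤ 2 ∧ (∀ x ∈ l, x ∈ S n) ∧ l.prod = g) ∧
    (∀ n, ((S' n).card : ℝ) ≤ 3 / 2 * ((S n).card : ℝ)) ∧
    ∃ c : ℝ, 0 < c ∧ ∀ n,
      c * ((sInf {t : ℕ | (1 / 2 : ℝ) * ∑ g : G n,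
            |((fun (p : G n → ℝ) (x : G n) =>
                p x / 2 + (∑ s ∈ S n, p (x * s⁻¹)) / (2 * ((S n).card : ℝ)))^[t]
              (fun x : G n => if x = 1 then (1 : ℝ) else 0)) g
              - 1 / (Fintype.card (G n) : ℝ)| ≤ 1 / 4} : ℕ) : ℝ)
        * Real.log (Real.log (Fintype.card (G n) : ℝ))
      ≤ ((sInf {t : ℕ | (1 / 2 : ℝ) * ∑ g : G n,
            |((fun (p : G n → ℝ) (x : G n) =>
                p x / 2 + (∑ s ∈ S' n, p (x * s⁻¹)) / (2 * ((S' n).card : ℝ)))^[t]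
              (fun x : G n => if x = 1 then (1 : ℝ) else 0)) g
              - 1 / (Fintype.card (G n) : ℝ)| ≤ 1 / 4} : ℕ) : ℝ) := by
  refine ⟨Pool.Agent.H299.Slow.Gn, fun n => inferInstance, fun n => inferInstance,
    fun n => Pool.Agent.H299.Slow.SS, fun n => Pool.Agent.H299.Slow.SS', ?_, ?_, ?_,
    1 / 3600, by norm_num, ?_⟩
  · refine Filter.tendsto_atTop_mono (fun n => ?_) Filter.tendsto_id
    have := Pool.Agent.H299.Slow.card_ge n
    simp only [id]
    omega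
  · intro n
    exact ⟨Pool.Agent.H299.Slow.SS_inv, Pool.Agent.H299.Slow.SS_closure,
      Pool.Agent.H299.Slow.SS'_inv, Pool.Agent.H299.Slow.SS'_closure,
      Pool.Agent.H299.Slow.SS_ssub (by unfold Pool.Agent.H299.Slow.tt; omega)
        (Pool.Agent.H299.Slow.ee_ge n),
      Pool.Agent.H299.Slow.SS'_len⟩
  · exact Pool.Agent.H299.Slow.card_ratio
  · intro n
    exact Pool.Agent.H299.Slow.tmix_ineq n

end Pool.Agent.Results.MP_ff071a_pr.LogLogSlowdown
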