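import Pool.Agent.H299_Slow.Comm

set_option autoImplicit false
open scoped Classical

namespace Pool.Agent.Results.MP_ff071a_pr.NoSlowdownConjugationInvariant

/-- Total variation mixing time (threshold `1/4`) of the lazy walk on the finite group `G` with step
set `S`: the law starts at the point mass at `1`, one step is
`p ↦ (x ↦ p x / 2 + (∑ s ∈ S, p (x s⁻¹)) / (2 |S|))`. -/
noncomputable def tmix {G : Type} [Group G] [Fintype G] (S : Finset G) : ℕ :=
  sInf {t : ℕ | (1 / 2 : ℝ) * ∑ g : G,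
    |((fun (p : G → ℝ) (x : G) => p x / 2 + (∑ s ∈ S, p (x * s⁻¹)) / (2 * (S.card : ℝ)))^[t]
      (fun x : G => if x = 1 then (1 : ℝ) else 0)) g - 1 / (Fintype.card G : ℝ)| ≤ 1 / 4}

/-- If `S ⊆ S'`, `S` generates the finite group `G`, `|S'| ≤ C |S|`, and `S` or `S'` is invariant under
conjugation (for example if `G` is abelian), then `t_mix(G, S') ≤ 9 C · t_mix(G, S)`: there is no
slowdown at all in this case. -/
theorem result (G : Type) [Group G] [Fintype G] (S S' : Finset G) (C : ℝ) (hS : S.Nonempty)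
    (hgen : Subgroup.closure (S : Set G) = ⊤) (hsub : S ⊆ S')
    (hC : (S'.card : ℝ) ≤ C * S.card)
    (h : (∀ g, ∀ s ∈ S, g * s * g⁻¹ ∈ S) ∨ (∀ g, ∀ s ∈ S', g * s * g⁻¹ ∈ S')) :
    (tmix S' : ℝ) ≤ 9 * C * tmix S :=
  Pool.Agent.H299.Slow.comm_bound S S' hS hsub h _
    (Nat.sInf_mem (Pool.Agent.H299.Slow.mixed_gen S hS hgen)) C hC

end Pool.Agent.Results.MP_ff071a_pr.NoSlowdownConjugationInvariant
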